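import Mathlib

set_option autoImplicit false

namespace Pool.Agent.H829Z.MaderT

open Finset

/-- the tournament coded by a sign pattern -/
def tAdj {n : ℕ} (σ : Fin n × Fin n → Bool) (u v : Fin n) : Prop :=
  (u < v ∧ σ (u, v) = true) ∨ (v < u ∧ σ (v, u) = false)

instance {n : ℕ} (σ : Fin n × Fin n → Bool) (u v : Fin n) : Decidable (tAdj σ u v) := by
  unfold tAdj; infer_instance

lemma tAdj_irrefl {n : ℕ} (σ : Fin n × Fin n → Bool) (u : Fin n) : ¬ tAdj σ u u := by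
  unfold tAdj; simp

lemma tAdj_total {n : ℕ} (σ : Fin n × Fin n → Bool) {u v : Fin n} (h : u ≠ v) :
    tAdj σ u v ∨ tAdj σ v u := by
  unfold tAdj
  rcases lt_or_gt_of_ne h with h1 | h1
  · cases hs : σ (u, v)
    · right; right; exact ⟨h1, rfl⟩
    · left; left; exact ⟨h1, rfl⟩
  · cases hs : σ (v, u)
    · left; right; exact ⟨h1, rfl⟩
    · right; left; exact ⟨h1, rfl⟩

lemma cyl_count {ι : Type*} [Fintype ι] [DecidableEq ι] (T : Finset ι) (τ : ι → Bool) :
    (#{σ : ι → Bool | ∀ i ∈ T, σ i = τ i} : ℝ) = 2 ^ Fintype.card ι * (1 / 2) ^ #T := by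
  have h1 : ({σ : ι → Bool | ∀ i ∈ T, σ i = τ i} : Finset (ι → Bool)) =
      Fintype.piFinset (fun i => if i ∈ T then {τ i} else univ) := by
    ext σ
    simp only [mem_filter, mem_univ, true_and, Fintype.mem_piFinset]
    constructor
    · intro h i
      by_cases hi : i ∈ T
      · simp [hi, h i hi]
      · simp [hi]
    · intro h i hi
      have := h i
      simpa [hi] using this
  rw [h1, Fintype.card_piFinset]
  push_cast
  have h2 : ∀ i : ι, ((#(if i ∈ T then ({τ i} : Finset Bool) else univ) : ℕ) : ℝ)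
      = 2 * (if i ∈ T then (1 / 2 : ℝ) else 1) := by
    intro i
    by_cases hi : i ∈ T <;> simp [hi]
  simp_rw [h2]
  rw [prod_mul_distrib, prod_const, card_univ, prod_ite_mem, univ_inter, prod_const]

lemma arcs_count {n : ℕ} (E : Finset (Fin n × Fin n))
    (hE : ∀ p ∈ E, p.1 ≠ p.2 ∧ p.swap ∉ E) :
    (#{σ : Fin n × Fin n → Bool | ∀ p ∈ E, tAdj σ p.1 p.2} : ℝ)
      ≤ 2 ^ Fintype.card (Fin n × Fin n) * (1 / 2) ^ #E := by
  classical
  let g : Fin n × Fin n → Fin n × Fin n := fun p => if p.1 < p.2 then p else p.swap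
  have hinj : Set.InjOn g E := by
    intro p hp q hq hpq
    simp only [g] at hpq
    by_cases h1 : p.1 < p.2 <;> by_cases h2 : q.1 < q.2 <;> simp only [h1, h2, if_true, if_false] at hpq
    · exact hpq
    · exact absurd (by rw [← hpq]; exact hp) (hE q hq).2
    · exact absurd (by rw [hpq]; exact hq) (hE p hp).2
    · exact Prod.swap_injective hpq
  have hc : #(E.image g) = #E := card_image_of_injOn hinj
  rw [← hc, ← cyl_count (E.image g) (fun q => decide (q ∈ E))]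
  norm_cast
  apply card_le_card
  intro σ hσ
  simp only [mem_filter, mem_univ, true_and] at hσ ⊢
  intro q hq
  obtain ⟨p, hp, rfl⟩ := mem_image.1 hq
  have h0 := hσ p hp
  unfold tAdj at h0
  by_cases h1 : p.1 < p.2
  · have : g p = p := by simp [g, h1]
    rw [this]
    rcases h0 with h0 | h0
    · simp [hp, h0.2]
    · exact absurd h1 (not_lt.2 h0.1.le)
  · have : g p = p.swap := by simp [g, h1]
    rw [this]
    rcases h0 with h0 | h0
    · exact absurd h0.1 h1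
    · have h3 := (hE p hp).2
      have h4 : σ p.swap = false := h0.2
      simp [h3, h4]

lemma union_count {n : ℕ} {α : Type*} (I : Finset α) (E : α → Finset (Fin n × Fin n))
    (hE : ∀ a ∈ I, ∀ p ∈ E a, p.1 ≠ p.2 ∧ p.swap ∉ E a) :
    (#{σ : Fin n × Fin n → Bool | ∃ a ∈ I, ∀ p ∈ E a, tAdj σ p.1 p.2} : ℝ)
      ≤ 2 ^ Fintype.card (Fin n × Fin n) * ∑ a ∈ I, (1 / 2 : ℝ) ^ #(E a) := by
  classical
  have h1 : ({σ : Fin n × Fin n → Bool | ∃ a ∈ I, ∀ p ∈ E a, tAdj σ p.1 p.2} :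
      Finset (Fin n × Fin n → Bool)) =
      I.biUnion (fun a => {σ : Fin n × Fin n → Bool | ∀ p ∈ E a, tAdj σ p.1 p.2}) := by
    ext σ; simp
  rw [h1, mul_sum]
  calc ((#(I.biUnion (fun a => ({σ : Fin n × Fin n → Bool | ∀ p ∈ E a, tAdj σ p.1 p.2} :
          Finset (Fin n × Fin n → Bool)))) : ℕ) : ℝ)
      ≤ ((∑ a ∈ I, #({σ : Fin n × Fin n → Bool | ∀ p ∈ E a, tAdj σ p.1 p.2} :
          Finset (Fin n × Fin n → Bool)) : ℕ) : ℝ) := by exact_mod_cast card_biUnion_le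
    _ ≤ _ := by
      push_cast
      exact sum_le_sum (fun a ha => arcs_count (E a) (hE a ha))

lemma exists_good {n : ℕ} {α β : Type*} (I : Finset α) (E : α → Finset (Fin n × Fin n))
    (hE : ∀ a ∈ I, ∀ p ∈ E a, p.1 ≠ p.2 ∧ p.swap ∉ E a)
    (J : Finset β) (G : β → Finset (Fin n × Fin n))
    (hG : ∀ a ∈ J, ∀ p ∈ G a, p.1 ≠ p.2 ∧ p.swap ∉ G a)
    (h1 : ∑ a ∈ I, (1 / 2 : ℝ) ^ #(E a) ≤ 1 / 4) (h2 : ∑ a ∈ J, (1 / 2 : ℝ) ^ #(G a) ≤ 1 / 4) :
    ∃ σ : Fin n × Fin n → Bool, (¬ ∃ a ∈ I, ∀ p ∈ E a, tAdj σ p.1 p.2) ∧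
      (¬ ∃ a ∈ J, ∀ p ∈ G a, tAdj σ p.1 p.2) := by
  classical
  by_contra hcon
  have hA := union_count I E hE
  have hB := union_count J G hG
  set A : Finset (Fin n × Fin n → Bool) := {σ | ∃ a ∈ I, ∀ p ∈ E a, tAdj σ p.1 p.2} with hAdef
  set B : Finset (Fin n × Fin n → Bool) := {σ | ∃ a ∈ J, ∀ p ∈ G a, tAdj σ p.1 p.2} with hBdef
  have hsub : (univ : Finset (Fin n × Fin n → Bool)) ⊆ A ∪ B := by
    intro σ _
    rw [mem_union]
    by_contra h
    rw [not_or] at h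
    apply hcon
    refine ⟨σ, fun h' => h.1 ?_, fun h' => h.2 ?_⟩
    · simp only [hAdef, mem_filter, mem_univ, true_and]; exact h'
    · simp only [hBdef, mem_filter, mem_univ, true_and]; exact h'
  have h3 : #(univ : Finset (Fin n × Fin n → Bool)) ≤ #A + #B :=
    (card_le_card hsub).trans (card_union_le A B)
  have h4 : (#(univ : Finset (Fin n × Fin n → Bool)) : ℝ) = 2 ^ Fintype.card (Fin n × Fin n) := by
    rw [card_univ, Fintype.card_fun]; simp
  have h5 : (#(univ : Finset (Fin n × Fin n → Bool)) : ℝ) ≤ #A + #B := by exact_mod_cast h3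
  have hp : (0 : ℝ) < 2 ^ Fintype.card (Fin n × Fin n) := by positivity
  rw [h4] at h5
  nlinarith [mul_le_mul_of_nonneg_left h1 hp.le, mul_le_mul_of_nonneg_left h2 hp.le]

/-- transitive sequences -/
def seqArcs {n s : ℕ} (v : Fin s → Fin n) : Finset (Fin n × Fin n) :=
  ({x : Fin s × Fin s | x.1 < x.2} : Finset (Fin s × Fin s)).image (fun x => (v x.1, v x.2))

lemma seqArcs_card {n s : ℕ} (v : Fin s → Fin n) (hv : Function.Injective v) :
    #(seqArcs v) = s.choose 2 := by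
  unfold seqArcs
  rw [card_image_of_injective, Fintype.card_product_filter_lt, Fintype.card_fin]
  intro x y hxy
  simp only [Prod.mk.injEq] at hxy
  exact Prod.ext (hv hxy.1) (hv hxy.2)

lemma seqArcs_ok {n s : ℕ} (v : Fin s → Fin n) (hv : Function.Injective v) :
    ∀ p ∈ seqArcs v, p.1 ≠ p.2 ∧ p.swap ∉ seqArcs v := by
  intro p hp
  unfold seqArcs at hp ⊢
  obtain ⟨x, hx, rfl⟩ := mem_image.1 hp
  simp only [mem_filter, mem_univ, true_and] at hx
  refine ⟨fun h => (ne_of_lt hx) (hv h), fun h => ?_⟩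
  obtain ⟨y, hy, hxy⟩ := mem_image.1 h
  simp only [mem_filter, mem_univ, true_and] at hy
  simp only [Prod.swap_prod_mk, Prod.mk.injEq] at hxy
  have e1 := hv hxy.1
  have e2 := hv hxy.2
  rw [e1, e2] at hy
  exact absurd hx (not_lt.2 hy.le)

lemma seq_sum {n M : ℕ} (hn : n ≤ 2 ^ M) :
    ∑ v ∈ ({v : Fin (2 * M + 3) → Fin n | Function.Injective v} : Finset _),
      (1 / 2 : ℝ) ^ #(seqArcs v) ≤ 1 / 4 := by
  have h1 : ∀ v ∈ ({v : Fin (2 * M + 3) → Fin n | Function.Injective v} : Finset _),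
      (1 / 2 : ℝ) ^ #(seqArcs v) = (1 / 2 : ℝ) ^ ((2 * M + 3) * (M + 1)) := by
    intro v hv
    simp only [mem_filter, mem_univ, true_and] at hv
    rw [seqArcs_card v hv, Nat.choose_two_right]
    congr 1
    have : (2 * M + 3) * (2 * M + 3 - 1) = ((2 * M + 3) * (M + 1)) * 2 := by
      have : 2 * M + 3 - 1 = 2 * M + 2 := by omega
      rw [this]; ring
    rw [this]; simp
  rw [sum_congr rfl h1, sum_const, nsmul_eq_mul]
  have h2 : (#({v : Fin (2 * M + 3) → Fin n | Function.Injective v} : Finset _) : ℝ)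
      ≤ (2 ^ M) ^ (2 * M + 3) := by
    have : #({v : Fin (2 * M + 3) → Fin n | Function.Injective v} : Finset _)
        ≤ (2 ^ M) ^ (2 * M + 3) := by
      calc _ ≤ #(univ : Finset (Fin (2 * M + 3) → Fin n)) := card_filter_le _ _
        _ = n ^ (2 * M + 3) := by simp
        _ ≤ _ := Nat.pow_le_pow_left hn _
    exact_mod_cast this
  calc _ ≤ (2 ^ M) ^ (2 * M + 3) * (1 / 2 : ℝ) ^ ((2 * M + 3) * (M + 1)) := by gcongr
    _ = (1 / 2 : ℝ) ^ (2 * M + 3) := by
      rw [mul_comm (2 * M + 3), pow_mul, ← mul_pow]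
      congr 1
      rw [pow_succ, ← mul_assoc, ← mul_pow]; simp
    _ ≤ (1 / 2 : ℝ) ^ 2 := pow_le_pow_of_le_one (by norm_num) (by norm_num) (by omega)
    _ = 1 / 4 := by norm_num

lemma no_colouring {n s r : ℕ} (σ : Fin n × Fin n → Bool) (hn : r * s < n)
    (h : ¬ ∃ v ∈ ({v : Fin s → Fin n | Function.Injective v} : Finset _),
      ∀ p ∈ seqArcs v, tAdj σ p.1 p.2) :
    ¬ ∃ c : Fin n → Fin r, ∃ f : Fin n → ℕ, ∀ u v, tAdj σ u v → c u = c v → f u < f v := by
  rintro ⟨c, f, hcf⟩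
  obtain ⟨y, hy⟩ := Fintype.exists_lt_card_fiber_of_mul_lt_card c (n := s) (by simpa using hn)
  obtain ⟨S, hS, hSc⟩ := exists_subset_card_eq hy.le
  let w : Fin s → Fin n := S.orderEmbOfFin hSc
  have hw : Function.Injective w := (S.orderEmbOfFin hSc).injective
  have hwc : ∀ i, c (w i) = y := by
    intro i
    have := hS (S.orderEmbOfFin_mem hSc i)
    simpa using this
  let v : Fin s → Fin n := w ∘ Tuple.sort (f ∘ w)
  have hv : Function.Injective v := hw.comp (Tuple.sort (f ∘ w)).injective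
  have hm : Monotone (f ∘ v) := Tuple.monotone_sort (f ∘ w)
  apply h
  refine ⟨v, by simpa using hv, ?_⟩
  intro p hp
  unfold seqArcs at hp
  obtain ⟨x, hx, rfl⟩ := mem_image.1 hp
  simp only [mem_filter, mem_univ, true_and] at hx
  have hne : v x.1 ≠ v x.2 := fun h => (ne_of_lt hx) (hv h)
  rcases tAdj_total σ hne with h1 | h1
  · exact h1
  · have h2 := hcf _ _ h1 ((hwc _).trans (hwc _).symm)
    have h3 := hm hx.le
    exact absurd h2 (not_lt.2 h3)

/-- images of the kept arcs -/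
def embArcs {k n : ℕ} (A : Finset (Fin k × Fin k)) (a : (Fin k → Fin n) × Finset (Fin k × Fin k)) :
    Finset (Fin n × Fin n) :=
  (A \ a.2).image (fun x => (a.1 x.1, a.1 x.2))

def embIdx {k : ℕ} (n : ℕ) (A : Finset (Fin k × Fin k)) :
    Finset ((Fin k → Fin n) × Finset (Fin k × Fin k)) :=
  ({φ : Fin k → Fin n | Function.Injective φ} : Finset _) ×ˢ {B ∈ A.powerset | #B ≤ n}

lemma embArcs_ok {k n : ℕ} (A : Finset (Fin k × Fin k))
    (hA : ∀ p ∈ A, p.1 ≠ p.2 ∧ p.swap ∉ A) :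
    ∀ a ∈ embIdx n A, ∀ p ∈ embArcs A a, p.1 ≠ p.2 ∧ p.swap ∉ embArcs A a := by
  intro a ha p hp
  unfold embIdx at ha
  have hφ : Function.Injective a.1 := by simpa using (mem_product.1 ha).1
  unfold embArcs at hp ⊢
  obtain ⟨x, hx, rfl⟩ := mem_image.1 hp
  have hxA := (mem_sdiff.1 hx).1
  refine ⟨fun h => (hA x hxA).1 (hφ h), fun h => ?_⟩
  obtain ⟨y, hy, hxy⟩ := mem_image.1 h
  have hyA := (mem_sdiff.1 hy).1
  simp only [Prod.swap_prod_mk, Prod.mk.injEq] at hxy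
  have : y = x.swap := Prod.ext (hφ hxy.1) (hφ hxy.2)
  exact (hA x hxA).2 (this ▸ hyA)

lemma emb_sum {k n M : ℕ} (hn : n ≤ 2 ^ M) (A : Finset (Fin k × Fin k))
    (hA : 3 * (M * k + 2 * n + 2) ≤ #A) :
    ∑ a ∈ embIdx n A, (1 / 2 : ℝ) ^ #(embArcs A a) ≤ 1 / 4 := by
  unfold embIdx
  rw [sum_product]
  have h1 : ∀ φ ∈ ({φ : Fin k → Fin n | Function.Injective φ} : Finset _),
      ∑ B ∈ {B ∈ A.powerset | #B ≤ n}, (1 / 2 : ℝ) ^ #(embArcs A (φ, B))
        ≤ 4 ^ n * (3 / 4) ^ #A := by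
    intro φ hφ
    simp only [mem_filter, mem_univ, true_and] at hφ
    have h2 : ∀ B ∈ {B ∈ A.powerset | #B ≤ n}, (1 / 2 : ℝ) ^ #(embArcs A (φ, B))
        ≤ 4 ^ n * ((1 / 4) ^ #B * (1 / 2) ^ (#A - #B)) := by
      intro B hB
      rw [mem_filter, mem_powerset] at hB
      have hc : #(embArcs A (φ, B)) = #A - #B := by
        unfold embArcs
        rw [card_image_of_injective, card_sdiff_of_subset hB.1]
        intro x y hxy
        simp only [Prod.mk.injEq] at hxy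
        exact Prod.ext (hφ hxy.1) (hφ hxy.2)
      rw [hc, ← mul_assoc]
      have h3 : (1 : ℝ) ≤ 4 ^ n * (1 / 4) ^ #B := by
        obtain ⟨d, hd⟩ := Nat.exists_eq_add_of_le hB.2
        rw [hd, pow_add, mul_right_comm, ← mul_pow]
        simp only [mul_one_div_cancel (by norm_num : (4 : ℝ) ≠ 0), one_pow, one_mul]
        exact one_le_pow₀ (by norm_num)
      have h4 : (0 : ℝ) ≤ (1 / 2) ^ (#A - #B) := by positivity
      nlinarith
    calc _ ≤ ∑ B ∈ {B ∈ A.powerset | #B ≤ n}, (4 : ℝ) ^ n * ((1 / 4) ^ #B * (1 / 2) ^ (#A - #B)) :=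
          sum_le_sum h2
      _ ≤ ∑ B ∈ A.powerset, (4 : ℝ) ^ n * ((1 / 4) ^ #B * (1 / 2) ^ (#A - #B)) :=
          sum_le_sum_of_subset_of_nonneg (filter_subset _ _) (fun _ _ _ => by positivity)
      _ = 4 ^ n * (3 / 4) ^ #A := by
          rw [← mul_sum, sum_pow_mul_eq_add_pow]; norm_num
  have h2 : (#({φ : Fin k → Fin n | Function.Injective φ} : Finset _) : ℝ) ≤ (2 ^ M) ^ k := by
    have : #({φ : Fin k → Fin n | Function.Injective φ} : Finset _) ≤ (2 ^ M) ^ k := by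
      calc _ ≤ #(univ : Finset (Fin k → Fin n)) := card_filter_le _ _
        _ = n ^ k := by simp
        _ ≤ _ := Nat.pow_le_pow_left hn _
    exact_mod_cast this
  have h3 : (3 / 4 : ℝ) ^ #A ≤ (1 / 2) ^ (M * k + 2 * n + 2) := by
    calc (3 / 4 : ℝ) ^ #A ≤ (3 / 4) ^ (3 * (M * k + 2 * n + 2)) :=
          pow_le_pow_of_le_one (by norm_num) (by norm_num) hA
      _ = ((3 / 4) ^ 3) ^ (M * k + 2 * n + 2) := by rw [pow_mul]
      _ ≤ _ := by gcongr; norm_num
  calc _ ≤ ∑ φ ∈ ({φ : Fin k → Fin n | Function.Injective φ} : Finset _),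
        (4 : ℝ) ^ n * (3 / 4) ^ #A := sum_le_sum h1
    _ = #({φ : Fin k → Fin n | Function.Injective φ} : Finset _) * ((4 : ℝ) ^ n * (3 / 4) ^ #A) := by
        rw [sum_const, nsmul_eq_mul]
    _ ≤ (2 ^ M) ^ k * ((4 : ℝ) ^ n * (1 / 2) ^ (M * k + 2 * n + 2)) := by gcongr
    _ = 1 / 4 := by
        have e4 : (4 : ℝ) ^ n = 2 ^ (2 * n) := by rw [pow_mul]; norm_num
        rw [e4, ← pow_mul, ← mul_assoc, ← pow_add, pow_add (1 / 2 : ℝ) _ 2, ← mul_assoc, ← mul_pow]
        norm_num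

lemma exists_half {k : ℕ} (T : Finset (Fin k × Fin k)) (hT : ∀ p ∈ T, p.1 ≠ p.2) :
    ∃ A ⊆ T, #T ≤ 2 * #A ∧ ∀ p ∈ A, p.1 ≠ p.2 ∧ p.swap ∉ A := by
  have hs := card_filter_add_card_filter_not (s := T) (fun p => p.1 < p.2)
  by_cases h : #{p ∈ T | ¬ p.1 < p.2} ≤ #{p ∈ T | p.1 < p.2}
  · refine ⟨{p ∈ T | p.1 < p.2}, filter_subset _ _, by omega, ?_⟩
    intro p hp
    rw [mem_filter] at hp
    refine ⟨hT p hp.1, fun h' => ?_⟩
    rw [mem_filter] at h'
    exact absurd hp.2 (not_lt.2 (le_of_lt h'.2))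
  · refine ⟨{p ∈ T | ¬ p.1 < p.2}, filter_subset _ _, by omega, ?_⟩
    intro p hp
    rw [mem_filter] at hp
    refine ⟨hT p hp.1, fun h' => ?_⟩
    rw [mem_filter] at h'
    have h1 := hT p hp.1
    have h2 : ¬ p.2 < p.1 := h'.2
    exact h1 (le_antisymm (not_lt.1 h2) (not_lt.1 hp.2))

theorem main (k t : ℕ) (F : Digraph (Fin k)) (hF : ∀ v, ¬ F.Adj v v)
    (H : ∀ n : ℕ, ∀ D : Digraph (Fin n), (∀ v, ¬ D.Adj v v) →
        (¬ ∃ c : Fin n → Fin (t - 1), ∃ f : Fin n → ℕ,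
            ∀ u v, D.Adj u v → c u = c v → f u < f v) →
        ∃ φ : Fin k → Fin n, ∃ ℓ : Fin k → Fin k → ℕ, ∃ p : Fin k → Fin k → ℕ → Fin n,
          Function.Injective φ ∧
          (∀ u v, F.Adj u v →
            1 ≤ ℓ u v ∧ p u v 0 = φ u ∧ p u v (ℓ u v) = φ v ∧
            (∀ i, i < ℓ u v → D.Adj (p u v i) (p u v (i + 1))) ∧
            (∀ i, 0 < i → i < ℓ u v → ∀ w, p u v i ≠ φ w) ∧
            (∀ u' v', F.Adj u' v' → ∀ i j, 0 < i → i < ℓ u v → 0 < j →
              j < ℓ u' v' → p u v i = p u' v' j → u = u' ∧ v = v' ∧ i = j))) :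
    {q : Fin k × Fin k | F.Adj q.1 q.2}.ncard ≤ 228 * t * (Nat.log 2 t + 1) := by
  classical
  -- the order of F is at most (t - 1) + 1
  have hk : k ≤ (t - 1) + 1 := by
    obtain ⟨φ, _, _, hφ, _⟩ := H ((t - 1) + 1) ⟨fun u v => u ≠ v⟩ (by simp) (by
      rintro ⟨c, f, hcf⟩
      obtain ⟨u, v, huv, hc⟩ := Fintype.exists_ne_map_eq_of_card_lt c (by simp)
      have h1 := hcf u v huv hc
      have h2 := hcf v u huv.symm hc.symm
      omega)
    simpa using Fintype.card_le_of_injective φ hφ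
  set T : Finset (Fin k × Fin k) := {q | F.Adj q.1 q.2} with hTdef
  have hT : {q : Fin k × Fin k | F.Adj q.1 q.2}.ncard = #T := by
    rw [← Set.ncard_coe_finset]; congr 1; ext q; simp [hTdef]
  rw [hT]
  have hTne : ∀ p ∈ T, p.1 ≠ p.2 := by
    intro p hp h
    simp only [hTdef, mem_filter, mem_univ, true_and] at hp
    rw [h] at hp
    exact hF _ hp
  rcases Nat.eq_zero_or_pos t with ht | ht
  · have : T = ∅ := by
      apply eq_empty_of_forall_notMem
      intro p hp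
      apply hTne p hp
      have h1 := p.1.2
      have h2 := p.2.2
      apply Fin.ext
      omega
    simp [this]
  have hkt : k ≤ t := by omega
  obtain ⟨A, hAT, hAc, hA⟩ := exists_half T hTne
  by_contra hcon
  rw [not_le] at hcon
  set L := Nat.log 2 t + 1 with hL
  have htL : t < 2 ^ L := Nat.lt_pow_succ_log_self (by norm_num) t
  set M := 2 * L + 4 with hM
  set n := t * (2 * M + 3) with hn
  have hL1 : 1 ≤ L := by omega
  have hn2 : n ≤ 2 ^ M := by
    have h1 : L < 2 ^ L := Nat.lt_two_pow_self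
    have h2 : 2 * M + 3 ≤ 2 ^ L * 16 := by omega
    calc n ≤ 2 ^ L * (2 ^ L * 16) := Nat.mul_le_mul htL.le h2
      _ = 2 ^ M := by rw [hM]; ring
  have hA3 : 3 * (M * k + 2 * n + 2) ≤ #A := by
    have h1 : M * k ≤ M * t := Nat.mul_le_mul_left _ hkt
    have h2 : t ≤ t * L := Nat.le_mul_of_pos_right _ hL1
    have h3 : M * t = 2 * (t * L) + 4 * t := by rw [hM]; ring
    have h4 : n = 4 * (t * L) + 11 * t := by rw [hn, hM]; ring
    have h5 : 228 * t * L = 228 * (t * L) := by ring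
    omega
  obtain ⟨σ, hσ1, hσ2⟩ := exists_good
    ({v : Fin (2 * M + 3) → Fin n | Function.Injective v} : Finset _) seqArcs
    (fun v hv => seqArcs_ok v (by simpa using hv)) (embIdx n A) (embArcs A) (embArcs_ok A hA)
    (seq_sum hn2) (emb_sum hn2 A hA3)
  have hlt : (t - 1) * (2 * M + 3) < n := by
    rw [hn]
    exact Nat.mul_lt_mul_of_pos_right (by omega) (by omega)
  obtain ⟨φ, ℓ, p, hφ, hp⟩ := H n ⟨tAdj σ⟩ (tAdj_irrefl σ) (no_colouring σ hlt hσ1)
  apply hσ2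
  have hadj : ∀ x ∈ A, F.Adj x.1 x.2 := by
    intro x hx
    have := hAT hx
    simpa [hTdef] using this
  refine ⟨(φ, {x ∈ A | 2 ≤ ℓ x.1 x.2}), ?_, ?_⟩
  · unfold embIdx
    rw [mem_product]
    refine ⟨by simpa using hφ, ?_⟩
    rw [mem_filter, mem_powerset]
    refine ⟨filter_subset _ _, ?_⟩
    have : #{x ∈ A | 2 ≤ ℓ x.1 x.2} ≤ #(univ : Finset (Fin n)) := by
      apply card_le_card_of_injOn (fun x => p x.1 x.2 1) (fun _ _ => by simp)
      intro x hx y hy hxy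
      simp only [coe_filter, Set.mem_ofPred_eq] at hx hy
      have := (hp x.1 x.2 (hadj x hx.1)).2.2.2.2.2 y.1 y.2 (hadj y hy.1) 1 1 (by norm_num)
        (by omega) (by norm_num) (by omega) hxy
      exact Prod.ext this.1 this.2.1
    simpa using this
  · intro q hq
    unfold embArcs at hq
    obtain ⟨x, hx, rfl⟩ := mem_image.1 hq
    rw [mem_sdiff, mem_filter] at hx
    obtain ⟨h1, h2, h3, h4, _⟩ := hp x.1 x.2 (hadj x hx.1)
    have hl : ℓ x.1 x.2 = 1 := by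
      by_contra h
      exact hx.2 ⟨hx.1, by omega⟩
    have h5 := h4 0 (by omega)
    rw [hl] at h3
    rw [h2, zero_add, h3] at h5
    exact h5

end Pool.Agent.H829Z.MaderT
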